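import Pool.Agent.H27.EX.QQBa

/-!
# Board exa_modules (MP_65efe8_pr), row QQB
-/

set_option autoImplicit false

open MeasureTheory ProbabilityTheory Filter Topology
open Pool.Agent.H95 Pool.Agent.H95.Cop
open Pool.Agent.H55.CG (Mo)
open Pool.Agent.H98.EX

namespace Pool.Agent.H27.EX

theorem up_lem (hWBA : T_WBA) (hHFC : T_HFC) {ρt : Measure ℝ} [IsProbabilityMeasure ρt]
    (hIt : ∀ t : ℝ, Integrable (fun z => Real.exp (t * z)) ρt) {e S θ τ : ℝ} (he0 : 0 < e)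
    (he1 : e ≤ 1 / 32) (hS0 : 0 < S) (hS1 : S ≤ 1 / 10) (hθ1 : θ < 1)
    (hθ : θ - 1 / 2 ≤ τ) (t4 : ((1 + e) * (2 * S)) ^ (-(2 * τ)) < 1 + e) (k : ℕ)
    (H1 : hh ρt k (1 / 2) ≤ (1 + e) * (2 * S)) : hh ρt k (1 - θ) ≤ (1 + e) ^ 2 * (2 * S) := by
  obtain ⟨-, -, u3, -, u5, -⟩ := hWBA ρt hIt 0 (1 / 2) (by norm_num)
  have hT1 : (1 + e) * (2 * S) ≤ 1 := by
    calc (1 + e) * (2 * S) ≤ 33 / 32 * (2 * (1 / 10)) :=
          mul_le_mul (by linarith) (by linarith) (by positivity) (by norm_num)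
      _ ≤ 1 := by norm_num
  have hT0 : 0 < (1 + e) * (2 * S) := by positivity
  rcases le_total (1 / 2) (1 - θ) with hp | hp
  · refine (u5 k _ hp).trans (H1.trans ?_)
    rw [show (1 + e) ^ 2 * (2 * S) = (1 + e) * ((1 + e) * (2 * S)) by ring]
    exact le_mul_of_one_le_left hT0.le (by linarith)
  · have h6 := hHFC ρt k (1 / 2) 0 (2 * (1 - θ)) (by norm_num) le_rfl (by linarith) (by linarith)
    rw [hh_zero, Real.one_rpow, mul_one,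
      show 2 * (1 - θ) * (1 / 2) + (1 - 2 * (1 - θ)) * 0 = 1 - θ by ring] at h6
    calc hh ρt k (1 - θ) ≤ hh ρt k (1 / 2) ^ (2 * (1 - θ)) := h6
      _ ≤ ((1 + e) * (2 * S)) ^ (2 * (1 - θ)) :=
          Real.rpow_le_rpow (u3 k).1.le H1 (by linarith)
      _ ≤ ((1 + e) * (2 * S)) ^ (1 + -(2 * τ)) :=
          Real.rpow_le_rpow_of_exponent_ge hT0 hT1 (by linarith)
      _ = (1 + e) * (2 * S) * ((1 + e) * (2 * S)) ^ (-(2 * τ)) := by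
          rw [Real.rpow_add hT0, Real.rpow_one]
      _ ≤ (1 + e) * (2 * S) * (1 + e) := mul_le_mul_of_nonneg_left t4.le hT0.le
      _ = (1 + e) ^ 2 * (2 * S) := by ring

theorem low_lem (hWBA : T_WBA) (hHFC : T_HFC) {ρt : Measure ℝ} [IsProbabilityMeasure ρt]
    (hIt : ∀ t : ℝ, Integrable (fun z => Real.exp (t * z)) ρt) {e S θ τ : ℝ} (he0 : 0 < e)
    (he1 : e ≤ 1 / 32) (hS0 : 0 < S) (hS1 : S ≤ 1 / 10) (hθ1 : θ < 1)
    (hθ : -τ ≤ θ - 1 / 2) (t5 : 1 - e < ((1 - e) * (2 * S)) ^ (2 * τ)) (k : ℕ)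
    (H2 : (1 - e) * (2 * S) ≤ hh ρt k (1 / 2)) : (1 - e) ^ 2 * (2 * S) ≤ hh ρt k (1 - θ) := by
  obtain ⟨-, -, v3, -, v5, -⟩ := hWBA ρt hIt 0 (1 - θ) (by linarith)
  have hT0 : 0 < (1 - e) * (2 * S) := mul_pos (by linarith) (by positivity)
  have hT1 : (1 - e) * (2 * S) ≤ 1 := by
    have := mul_le_mul_of_nonneg_right (by linarith : 1 - e ≤ 1)
      (by positivity : (0 : ℝ) ≤ 2 * S)
    linarith
  have hT2 : (1 - e) ^ 2 * (2 * S) ≤ (1 - e) * (2 * S) := by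
    rw [show (1 - e) ^ 2 * (2 * S) = (1 - e) * ((1 - e) * (2 * S)) by ring]
    exact mul_le_of_le_one_left hT0.le (by linarith)
  rcases le_total (1 - θ) (1 / 2) with hp | hp
  · exact hT2.trans (H2.trans (v5 k _ hp))
  · have hp0 : 0 < 1 - θ := by linarith
    have h6 := hHFC ρt k (1 - θ) 0 (1 / (2 * (1 - θ))) hp0.le le_rfl (by positivity)
      (by rw [div_le_one (by positivity)]; linarith)
    rw [hh_zero, Real.one_rpow, mul_one,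
      show 1 / (2 * (1 - θ)) * (1 - θ) + (1 - 1 / (2 * (1 - θ))) * 0 = 1 / 2 by
        field_simp; ring] at h6
    calc (1 - e) ^ 2 * (2 * S) = (1 - e) * (2 * S) * (1 - e) := by ring
      _ ≤ (1 - e) * (2 * S) * ((1 - e) * (2 * S)) ^ (2 * τ) :=
          mul_le_mul_of_nonneg_left t5.le hT0.le
      _ = ((1 - e) * (2 * S)) ^ (1 + 2 * τ) := by rw [Real.rpow_add hT0, Real.rpow_one]
      _ ≤ ((1 - e) * (2 * S)) ^ (2 * (1 - θ)) :=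
          Real.rpow_le_rpow_of_exponent_ge hT0 hT1 (by linarith)
      _ ≤ (hh ρt k (1 - θ) ^ (1 / (2 * (1 - θ)))) ^ (2 * (1 - θ)) :=
          Real.rpow_le_rpow hT0.le (H2.trans h6) (by linarith)
      _ = hh ρt k (1 - θ) := by
          rw [← Real.rpow_mul (v3 k).1.le, one_div, inv_mul_cancel₀ (by positivity),
            Real.rpow_one]

/-- the powers of `m` -/
theorem m_lem {ρ : Measure ℝ} {ϑ θ τ e : ℝ} {n : ℕ} (h0 : 0 < ϑ) (hϑ1 : ϑ ≤ 1) (hτ : 0 < τ)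
    (hθ0 : 0 < θ) (hθ1 : θ < 1) (hθ : |θ - 1 / 2| ≤ τ) (t2 : Real.exp (2 * τ * n) < 1 + e)
    (hbθ : Real.exp (ϑ * (θ ^ 2 / 2 - θ / 4) - τ) ≤ Mo ρ θ ∧
      Mo ρ θ ≤ Real.exp (ϑ * (θ ^ 2 / 2 - θ / 4) + τ)) :
    ∃ A : ℝ, 0 < A ∧ A ≤ 1 + e ∧ (∀ j, j ≤ n → 1 / A ≤ Mo ρ θ ^ j) ∧
      ∀ j, j ≤ n → Mo ρ θ ^ j ≤ A := by
  obtain ⟨m, hm⟩ : ∃ m, m = Mo ρ θ := ⟨_, rfl⟩
  have hmθ : |ϑ * (θ ^ 2 / 2 - θ / 4)| ≤ τ := by
    rw [show ϑ * (θ ^ 2 / 2 - θ / 4) = ϑ * θ / 2 * (θ - 1 / 2) by ring, abs_mul]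
    calc |ϑ * θ / 2| * |θ - 1 / 2| ≤ 1 * τ := by
          refine mul_le_mul ?_ hθ (abs_nonneg _) zero_le_one
          rw [abs_of_pos (by positivity)]
          have := mul_le_mul hϑ1 hθ1.le hθ0.le zero_le_one
          linarith
      _ = τ := one_mul _
  have hmθ' := abs_le.1 hmθ
  rw [← hm] at hbθ
  rw [← hm]
  have hm1 : Real.exp (-(2 * τ)) ≤ m := (Real.exp_le_exp.2 (by linarith)).trans hbθ.1
  have hm2 : m ≤ Real.exp (2 * τ) := hbθ.2.trans (Real.exp_le_exp.2 (by linarith))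
  have hm0 : 0 < m := lt_of_lt_of_le (Real.exp_pos _) hm1
  refine ⟨Real.exp (2 * τ * n), Real.exp_pos _, t2.le, fun j hj => ?_, fun j hj => ?_⟩
  · have hj' : (j : ℝ) ≤ n := by exact_mod_cast hj
    calc 1 / Real.exp (2 * τ * n) = Real.exp (-(2 * τ * n)) := by rw [Real.exp_neg, one_div]
      _ ≤ Real.exp (j * (-(2 * τ))) := by
          refine Real.exp_le_exp.2 ?_
          have := mul_le_mul_of_nonneg_left hj' (by linarith : 0 ≤ 2 * τ)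
          linarith
      _ = Real.exp (-(2 * τ)) ^ j := by rw [← Real.exp_nat_mul]
      _ ≤ m ^ j := pow_le_pow_left₀ (Real.exp_pos _).le hm1 j
  · have hj' : (j : ℝ) ≤ n := by exact_mod_cast hj
    calc m ^ j ≤ Real.exp (2 * τ) ^ j := pow_le_pow_left₀ hm0.le hm2 j
      _ = Real.exp (j * (2 * τ)) := by rw [← Real.exp_nat_mul]
      _ ≤ Real.exp (2 * τ * n) := by
          refine Real.exp_le_exp.2 ?_
          have := mul_le_mul_of_nonneg_left hj' (by linarith : 0 ≤ 2 * τ)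
          linarith

/-- the third claim -/
theorem third_lem (hWBA : T_WBA) (hHF0 : T_HF0) (hHFC : T_HFC) {ρt : Measure ℝ}
    [IsProbabilityMeasure ρt] (hIt : ∀ t : ℝ, Integrable (fun z => Real.exp (t * z)) ρt)
    {ϑ θ τ x K0 E : ℝ} {R : ℕ} (h0 : 0 < ϑ) (hϑ1 : ϑ ≤ 1) (hR0 : R ≠ 0) (hθ0 : 0 < θ)
    (hθ1 : θ < 1) (hθ : θ - 1 / 2 ≤ τ) (hE : E < ϑ / 1000)
    (h8 : Mo ρt (1 / 4) ≤ Real.exp (ϑ * (1 / 4 / 4 + (1 / 4 : ℝ) ^ 2 / 2) + E))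
    (hxR : x ^ R ≤ K0 * ϑ ^ 2) (hK5 : 4 * K0 * ϑ ^ 2 ≤ ϑ / 10) (hd1 : 0 ≤ Mo ρt (-(1 / 4)))
    (hc1 : Mo ρt (-(1 / 4)) ≤ x) (t6 : (3 * ϑ / 5) ^ (-(2 * τ)) < 5 / 3) :
    hh ρt R (2 - 2 * θ) ≤ ϑ := by
  obtain ⟨r, hr⟩ := Nat.exists_eq_succ_of_ne_zero hR0
  have h6 := (hHF0 ρt hIt (1 / 4) r (by norm_num) (by norm_num)).1
  rw [show r + 1 = R from hr.symm] at h6
  obtain ⟨-, -, y3, -, y5, -⟩ := hWBA ρt hIt 0 1 (by norm_num)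
  have h7 : ∫ z, z ∂ρt ≤ ϑ / 2 := by
    refine (mean_le ρt hIt).trans ?_
    have h9 : ϑ * (1 / 4 / 4 + (1 / 4 : ℝ) ^ 2 / 2) + E ≤ ϑ / 10 := by
      norm_num
      linarith
    have h13 := h8.trans ((Real.exp_le_exp.2 h9).trans (exp_tenth h0 hϑ1))
    linarith
  have h8 : Mo ρt (-(1 / 4)) ^ R ≤ x ^ R := pow_le_pow_left₀ hd1 hc1 R
  have h9 : hh ρt R 1 ≤ 3 * ϑ / 5 := by
    have h10 : Mo ρt (-(1 / 4)) ^ R / (1 / 4) ≤ 4 * K0 * ϑ ^ 2 := by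
      rw [div_le_iff₀ (by norm_num)]
      linarith
    linarith
  have hy0 := (y3 R).1
  have hX0 : 0 < 3 * ϑ / 5 := by positivity
  rcases le_total 1 (2 - 2 * θ) with hp | hp
  · refine (y5 R _ hp).trans (h9.trans ?_)
    linarith
  · have h10 := hHFC ρt R 1 0 (2 - 2 * θ) (by norm_num) le_rfl (by linarith) hp
    rw [hh_zero, Real.one_rpow, mul_one, mul_one, mul_zero, add_zero] at h10
    calc hh ρt R (2 - 2 * θ) ≤ hh ρt R 1 ^ (2 - 2 * θ) := h10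
      _ ≤ (3 * ϑ / 5) ^ (2 - 2 * θ) := Real.rpow_le_rpow hy0.le h9 (by linarith)
      _ ≤ (3 * ϑ / 5) ^ (1 + -(2 * τ)) :=
          Real.rpow_le_rpow_of_exponent_ge hX0 (by linarith) (by linarith)
      _ = 3 * ϑ / 5 * (3 * ϑ / 5) ^ (-(2 * τ)) := by
          rw [Real.rpow_add hX0, Real.rpow_one]
      _ ≤ 3 * ϑ / 5 * (5 / 3) := mul_le_mul_of_nonneg_left t6.le hX0.le
      _ = ϑ := by ring

/-- the numbers -/
theorem num_lem {ϑ e K0 S : ℝ} (h0 : 0 < ϑ) (hϑ1 : ϑ ≤ 1 / 64) (he0 : 0 < e) (hK0p : 0 < K0)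
    (h4 : ϑ < (e / (768 * K0)) ^ 2) (h5 : ϑ < 1 / (40 * K0))
    (hS : S = Real.sqrt (ϑ / (8 * Real.pi))) : 0 < S ∧
      Real.sqrt (ϑ / (2 * Real.pi)) = 2 * S ∧ S ≤ 1 / 10 ∧ 128 * K0 * ϑ ≤ e * S ∧
      4 * K0 * ϑ ^ 2 ≤ ϑ / 10 := by
  have hπ := Real.pi_pos
  have hπ3 := Real.pi_gt_three
  have hπ4 := Real.pi_le_four
  have hS0 : 0 < S := by rw [hS]; positivity
  have hS2 : Real.sqrt (ϑ / (2 * Real.pi)) = 2 * S := by
    rw [hS, show ϑ / (2 * Real.pi) = 2 ^ 2 * (ϑ / (8 * Real.pi)) by field_simp; norm_num,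
      Real.sqrt_mul (by norm_num), Real.sqrt_sq (by norm_num)]
  have hS6 : Real.sqrt ϑ / 6 ≤ S := by
    rw [hS, show Real.sqrt ϑ / 6 = Real.sqrt (ϑ / 36) by
      rw [Real.sqrt_div h0.le, show (36 : ℝ) = 6 ^ 2 by norm_num,
        Real.sqrt_sq (by norm_num)]]
    refine Real.sqrt_le_sqrt ?_
    exact div_le_div_of_nonneg_left h0.le (by positivity) (by linarith)
  have hS1 : S ≤ 1 / 10 := by
    rw [hS, show (1 / 10 : ℝ) = Real.sqrt ((1 / 10) ^ 2) by rw [Real.sqrt_sq (by norm_num)]]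
    refine Real.sqrt_le_sqrt ?_
    rw [div_le_iff₀ (by positivity), show (1 / 10 : ℝ) ^ 2 * (8 * Real.pi) = 8 / 100 * Real.pi by
      ring]
    linarith
  refine ⟨hS0, hS2, hS1, ?_, ?_⟩
  · have h6 : Real.sqrt ϑ ≤ e / (768 * K0) := by
      rw [show e / (768 * K0) = Real.sqrt ((e / (768 * K0)) ^ 2) by
        rw [Real.sqrt_sq (by positivity)]]
      exact Real.sqrt_le_sqrt h4.le
    have h7 : 768 * K0 * Real.sqrt ϑ ≤ e := by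
      rw [le_div_iff₀ (by positivity)] at h6
      linarith
    have h8 : Real.sqrt ϑ * Real.sqrt ϑ = ϑ := Real.mul_self_sqrt h0.le
    calc 128 * K0 * ϑ = 768 * K0 * Real.sqrt ϑ * (Real.sqrt ϑ / 6) := by
          rw [show 768 * K0 * Real.sqrt ϑ * (Real.sqrt ϑ / 6) =
            128 * K0 * (Real.sqrt ϑ * Real.sqrt ϑ) by ring, h8]
      _ ≤ e * S := mul_le_mul h7 hS6 (by positivity) he0.le
  · rw [lt_div_iff₀ (by positivity)] at h5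
    have h6 := mul_le_mul_of_nonneg_right h5.le h0.le
    have h7 : ϑ * (40 * K0) * ϑ = 10 * (4 * K0 * ϑ ^ 2) := by ring
    rw [h7, one_mul] at h6
    linarith

/-- the moments of order `± 1/4` -/
theorem quart_lem {ρ ρt : Measure ℝ} {ϑ τ E x : ℝ} (h0 : 0 < ϑ) (hx : x = Real.exp (-(ϑ / 64)))
    (hE : E < ϑ / 1000) (hτE : τ ≤ E)
    (hb1 : Mo ρt (-(1 / 4)) ≤ Real.exp (ϑ * (-(1 / 4) / 4 + (-(1 / 4)) ^ 2 / 2) + E))
    (hb2 : Mo ρ (1 / 4) ≤ Real.exp (ϑ * ((1 / 4) ^ 2 / 2 - 1 / 4 / 4) + τ)) :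
    Mo ρt (-(1 / 4)) ≤ x ∧ Mo ρ (1 / 4) ≤ x := by
  constructor
  · refine hb1.trans ?_
    rw [hx]
    refine Real.exp_le_exp.2 ?_
    norm_num
    linarith
  · refine hb2.trans ?_
    rw [hx]
    refine Real.exp_le_exp.2 ?_
    norm_num
    linarith

/-- the moment of order `1 - θ` -/
theorem one_lem {ρt : Measure ℝ} {ϑ θ e E : ℝ} (h0 : 0 < ϑ) (h3 : ϑ < e / 2) (he1 : e ≤ 1 / 32)
    (hθ0 : 0 < θ) (hθ1 : θ < 1) (hE : E < ϑ / 1000)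
    (h : Mo ρt (1 - θ) ≤ Real.exp (ϑ * ((1 - θ) / 4 + (1 - θ) ^ 2 / 2) + E)) :
    Mo ρt (1 - θ) ≤ 1 + e := by
  refine h.trans ?_
  have h7 : (1 - θ) / 4 + (1 - θ) ^ 2 / 2 ≤ 3 / 4 := by
    have : (1 - θ) ^ 2 ≤ 1 := pow_le_one₀ (by linarith) (by linarith)
    linarith
  have h8 : ϑ * ((1 - θ) / 4 + (1 - θ) ^ 2 / 2) + E ≤ ϑ := by
    have := mul_le_mul_of_nonneg_left h7 h0.le
    linarith
  refine (Real.exp_le_exp.2 h8).trans ((exp_small (by linarith) h0.le).trans ?_)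
  linarith

/-- hypotheses for a subrange -/
theorem sub_lem {ρt : Measure ℝ} {ϑ E τ1 : ℝ} {Q Q1 : ℕ} (hQ : (Q1 : ℝ) + 1 ≤ Q) (hE : E ≤ τ1)
    (htb : ∀ q : ℝ, -1 ≤ q → q ≤ (Q : ℝ) - 1 →
      Real.exp (ϑ * (q / 4 + q ^ 2 / 2) - E) ≤ Mo ρt q ∧
      Mo ρt q ≤ Real.exp (ϑ * (q / 4 + q ^ 2 / 2) + E)) :
    ∀ q : ℝ, -1 ≤ q → q ≤ Q1 → Real.exp (ϑ * (q / 4 + q ^ 2 / 2) - τ1) ≤ Mo ρt q ∧
      Mo ρt q ≤ Real.exp (ϑ * (q / 4 + q ^ 2 / 2) + τ1) := by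
  intro q hq hq'
  obtain ⟨a, b⟩ := htb q hq (by linarith)
  exact ⟨(Real.exp_le_exp.2 (by linarith)).trans a, b.trans (Real.exp_le_exp.2 (by linarith))⟩

theorem pf_QQB (hWBA : T_WBA) (hTEL : T_TEL) (hQCV : T_QCV) (hHF0 : T_HF0) (hHFC : T_HFC)
    (hHUP : T_HUP) (hHLO : T_HLO) : T_QQB := by
  intro η hη
  obtain ⟨e, he0, he1, heη⟩ : ∃ e : ℝ, 0 < e ∧ e ≤ 1 / 32 ∧ 10 * e ≤ η := by
    refine ⟨min η 1 / 32, by positivity, ?_, ?_⟩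
    · have := min_le_right η 1
      linarith
    · have := min_le_left η 1
      have h2 : 0 < min η 1 := by positivity
      linarith
  obtain ⟨Q1, ϑ1, hϑ1, H1⟩ := hHUP e he0
  obtain ⟨Q2, ϑ2, hϑ2, H2⟩ := hHLO e he0
  obtain ⟨K0, hK0⟩ : ∃ K0 : ℝ, K0 = 24 * 64 ^ 4 := ⟨_, rfl⟩
  have hK0p : 0 < K0 := by rw [hK0]; positivity
  obtain ⟨Q, hQ2, hQ1', hQ2'⟩ : ∃ Q : ℕ, 2 ≤ Q ∧ Q1 + 1 ≤ Q ∧ Q2 + 1 ≤ Q :=
    ⟨max (max Q1 Q2) 1 + 1, by omega, by omega, by omega⟩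
  have hQ1r : (Q1 : ℝ) + 1 ≤ Q := by exact_mod_cast hQ1'
  have hQ2r : (Q2 : ℝ) + 1 ≤ Q := by exact_mod_cast hQ2'
  have hQr : (2 : ℝ) ≤ Q := by exact_mod_cast hQ2
  clear hQ1' hQ2'
  refine ⟨Q, min (min ϑ1 ϑ2) (min (e / 2) (min ((e / (768 * K0)) ^ 2) (1 / (40 * K0)))),
    by positivity, fun ϑ h0 hlt R hR => ?_⟩
  simp only [lt_min_iff] at hlt
  obtain ⟨⟨h1, h2⟩, h3, h4, h5⟩ := hlt
  obtain ⟨τ1, n1, hτ1, H1⟩ := H1 ϑ h0 h1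
  obtain ⟨τ2, hτ2, H2⟩ := H2 ϑ h0 h2
  have hϑ64 : ϑ ≤ 1 / 64 := by linarith
  obtain ⟨S, hS⟩ : ∃ S, S = Real.sqrt (ϑ / (8 * Real.pi)) := ⟨_, rfl⟩
  obtain ⟨hS0, hS2, hS1, htail, hK5⟩ := num_lem h0 hϑ64 he0 hK0p h4 h5 hS
  rw [hS2] at H1 H2
  rw [← hS]
  have hR0 : R ≠ 0 := by
    rintro rfl
    have : (0 : ℝ) < ϑ ^ (-(3 / 2) : ℝ) := by positivity
    simp only [Nat.cast_zero] at hR
    linarith
  obtain ⟨x, hx⟩ : ∃ x, x = Real.exp (-(ϑ / 64)) := ⟨_, rfl⟩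
  have hxR := pow_small h0 hx R hR
  rw [← hK0] at hxR
  obtain ⟨n, hRn, hn1, hn2, hn3⟩ := ex_n (e := e) (S := S) R n1 he0 hS0
  obtain ⟨τ, hτ, t1, t2, t3, t4, t5, t6⟩ := ex_tau (e := e) (ϑ := ϑ) (S := 2 * S)
    (c := min τ1 (min τ2 (ϑ / 1000))) (B := 2 + Q) n he0 h0 (by positivity) (by linarith)
    (by positivity)
  simp only [lt_min_iff] at t1
  obtain ⟨t11, t12, t13⟩ := t1
  have hτQ : τ ≤ (2 + Q) * τ := le_mul_of_one_le_left hτ.le (by linarith)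
  clear h1 h2 h4 h5 hϑ1 hϑ2 hS hS2 hR hη hK0
  refine ⟨τ, hτ, fun ρ _ hI hb θ hθ => ?_⟩
  have hθ' := abs_le.1 hθ
  have hθ0 : 0 < θ := by linarith
  have hθ1 : θ < 1 := by linarith
  have : IsProbabilityMeasure (ρ.tilted fun t => θ * t) := isProbabilityMeasure_tilted (hI θ)
  have hIt := int_tilt ρ hI θ
  have htb := tilt_bd ρ hQ2 h0 (by linarith) (by linarith) hθ hb
  obtain ⟨E, hE⟩ : ∃ E, E = (2 + Q) * τ := ⟨_, rfl⟩
  rw [← hE] at t11 t12 t13 hτQ htb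
  clear hE
  have hTEL' := hTEL ρ hI θ n hθ0 hθ1
  have hQCV' := hQCV ρ hI θ (1 - θ) (1 / 4) R n R n (by linarith) (by norm_num) (by norm_num)
    hRn hRn
  obtain ⟨w1, w2, -, -, -, -⟩ := hWBA ρ hI θ (1 - θ) (by linarith)
  have w6 := (hWBA ρ hI θ (2 - 2 * θ) (by linarith)).2.2.2.2.2 R R
  obtain ⟨ρt, hρt⟩ : ∃ ρt, ρt = ρ.tilted fun t => θ * t := ⟨_, rfl⟩
  rw [← hρt] at hTEL' hQCV' htb hIt w6
  have : IsProbabilityMeasure ρt := by rw [hρt]; infer_instance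
  have v3 := (hWBA ρt hIt 0 (1 - θ) (by linarith)).2.2.1
  have hup : ∀ k, n1 ≤ k → hh ρt k (1 - θ) ≤ (1 + e) ^ 2 * (2 * S) := fun k hk =>
    up_lem hWBA hHFC hIt he0 he1 hS0 hS1 hθ1 hθ'.2 t4 k
      (H1 ρt hIt (sub_lem hQ1r t11.le htb) k hk)
  have hlow : ∀ k, (1 - e) ^ 2 * (2 * S) ≤ hh ρt k (1 - θ) := fun k =>
    low_lem hWBA hHFC hIt he0 he1 hS0 hS1 hθ1 hθ'.1 t5 k
      (H2 ρt hIt (sub_lem hQ2r t12.le htb) k)
  obtain ⟨A, hA0, hA1, hmA', hmA⟩ := m_lem (n := n) h0 (by linarith) hτ hθ0 hθ1 hθ t2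
    (hb θ (by linarith) (by linarith))
  have hb1 := htb (-(1 / 4)) (by norm_num) (by linarith)
  have hb2 := hb (1 / 4) (by norm_num) (by linarith)
  obtain ⟨hc1, hc2⟩ := quart_lem h0 hx t13 hτQ hb1.2 hb2.2
  have hd1 : 0 ≤ Mo ρt (-(1 / 4)) := le_trans (Real.exp_pos _).le hb1.1
  have hd2 : 0 ≤ Mo ρ (1 / 4) := le_trans (Real.exp_pos _).le hb2.1
  have hM := htb (1 - θ) (by linarith) (by linarith)
  have hV := htb (1 / 4) (by norm_num) (by linarith)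
  refine ⟨?_, ?_, ?_⟩
  · have h6 := core_low (n := n) (R := R) (m := Mo ρ θ) (θ := θ) (A := A) (e := e) (S := S)
      (Z := QQ ρ θ (1 - θ) R R) (q := fun j => QQ ρ θ (1 - θ) j (n - j))
      (h := fun k => hh ρt (k + 1) (1 - θ)) (by linarith) he0 he1 hS0 (w1 R R).1 hA0 hA1 hmA' hmA
      (fun j => w1 _ _) (fun j hj1 hj2 => w2 _ _ _ _ hj1 (by omega)) (fun k => hlow _) hn2 hn3
      hTEL'.2
    refine le_trans ?_ h6
    exact mul_le_mul_of_nonneg_right (by linarith) hS0.le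
  · have hM0 : 0 ≤ Mo ρt (1 - θ) := le_trans (Real.exp_pos _).le hM.1
    have hM1 : Mo ρt (1 - θ) ≤ 1 + e := one_lem h0 h3 he1 hθ0 hθ1 t13 hM.2
    have h6 := core_up (n := n) (n1 := n1) (m := Mo ρ θ) (θ := θ) (A := A) (M := Mo ρt (1 - θ))
      (e := e) (S := S) (Z := QQ ρ θ (1 - θ) n n) (q := fun j => QQ ρ θ (1 - θ) j (n - j))
      (h := fun k => hh ρt k (1 - θ)) hθ0 (by linarith) he0 he1 hS0 (w1 n n).1 hA0 hA1 hM0 hM1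
      hmA' hmA (fun j hj => w2 _ _ _ _ hj (by omega)) (fun k => ⟨(v3 k).1.le, (v3 k).2⟩) hup hn1
      hTEL'.1
    have h7 : max 1 (1 - θ) = 1 := max_eq_left (by linarith)
    rw [h7, one_mul] at hQCV'
    have h8 := tail_le h0 hx R n hd1 hc1
    have h9 := tail_le h0 hx R n hd2 hc2
    have h10 : 64 / ϑ * x ^ R ≤ 64 * K0 * ϑ := by
      calc 64 / ϑ * x ^ R ≤ 64 / ϑ * (K0 * ϑ ^ 2) :=
            mul_le_mul_of_nonneg_left hxR (by positivity)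
        _ = 64 * K0 * ϑ := by field_simp
    have h11 : (1 + 10 * e) * S ≤ (1 + η) * S :=
      mul_le_mul_of_nonneg_right (by linarith) hS0.le
    clear hTEL' w1 w2 v3 hup hlow hmA' hmA H1 H2 hb htb hI hIt hM hV hn1 hn2 hn3 t2 t3 t4 t5 t6
    linarith
  · exact w6.trans (third_lem hWBA hHF0 hHFC hIt h0 (by linarith) hR0 hθ0 hθ1 hθ'.2 t13 hV.2 hxR
      hK5 hd1 hc1 t6)

end Pool.Agent.H27.EX
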