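import Pool.Agent.H98.EX.WTargets

/-!
# Board exa_modules (MP_65efe8_pr), row QQB, part 1
-/

set_option autoImplicit false

open MeasureTheory ProbabilityTheory Filter Topology
open Pool.Agent.H95 Pool.Agent.H95.Cop
open Pool.Agent.H55.CG (Mo)
open Pool.Agent.H98.EX

namespace Pool.Agent.H27.EX

theorem mo_tilt (ρ : Measure ℝ) (θ q : ℝ) :
    Mo (ρ.tilted fun t => θ * t) q = Mo ρ (θ + q) / Mo ρ θ := by
  unfold Mo
  rw [integral_exp_tilted (fun t => θ * t) (fun t => q * t)]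
  congr 1
  refine integral_congr_ae (ae_of_all _ fun z => ?_)
  simp only [Pi.add_apply]
  rw [add_mul]

theorem int_tilt (ρ : Measure ℝ) (hI : ∀ t : ℝ, Integrable (fun z => Real.exp (t * z)) ρ)
    (θ t : ℝ) : Integrable (fun z => Real.exp (t * z)) (ρ.tilted fun t => θ * t) := by
  rw [integrable_tilted_iff (hI θ)]
  refine (hI (θ + t)).congr (ae_of_all _ fun z => ?_)
  simp only [smul_eq_mul]
  rw [← Real.exp_add, add_mul]

theorem exp_small {x : ℝ} (h1 : x ≤ 1 / 2) (h0 : 0 ≤ x) : Real.exp x ≤ 1 + 2 * x := by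
  have h2 : Real.exp x * (1 - x) ≤ 1 := by
    have h3 : 1 - x ≤ Real.exp (-x) := by
      have := Real.add_one_le_exp (-x)
      linarith
    calc Real.exp x * (1 - x) ≤ Real.exp x * Real.exp (-x) :=
          mul_le_mul_of_nonneg_left h3 (Real.exp_pos _).le
      _ = 1 := by rw [← Real.exp_add]; simp
  have h4 : Real.exp x ≤ 1 / (1 - x) := by
    rw [le_div_iff₀ (by linarith)]
    exact h2
  refine h4.trans ?_
  rw [div_le_iff₀ (by linarith)]
  nlinarith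

/-- bounds for the tilted law -/
theorem tilt_bd (ρ : Measure ℝ) {ϑ τ θ : ℝ} {Q : ℕ} (hQ : 2 ≤ Q) (hϑ : 0 < ϑ) (hϑ1 : ϑ ≤ 1)
    (hτ1 : τ ≤ 1 / 4) (hθ : |θ - 1 / 2| ≤ τ)
    (hb : ∀ q : ℝ, -1 ≤ q → q ≤ Q → Real.exp (ϑ * (q ^ 2 / 2 - q / 4) - τ) ≤ Mo ρ q ∧
      Mo ρ q ≤ Real.exp (ϑ * (q ^ 2 / 2 - q / 4) + τ)) :
    ∀ q : ℝ, -1 ≤ q → q ≤ (Q : ℝ) - 1 →
      Real.exp (ϑ * (q / 4 + q ^ 2 / 2) - (2 + Q) * τ) ≤ Mo (ρ.tilted fun t => θ * t) q ∧
      Mo (ρ.tilted fun t => θ * t) q ≤ Real.exp (ϑ * (q / 4 + q ^ 2 / 2) + (2 + Q) * τ) := by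
  intro q hq1 hq2
  have hQ' : (2 : ℝ) ≤ Q := by exact_mod_cast hQ
  have hθ' := abs_le.1 hθ
  have h1 := hb θ (by linarith) (by linarith)
  have h2 := hb (θ + q) (by linarith) (by linarith)
  have hq : |q| ≤ Q := by
    rw [abs_le]
    constructor <;> linarith
  have hτ0 : 0 ≤ τ := (abs_nonneg _).trans hθ
  have h3 : |ϑ * ((θ - 1 / 2) * q)| ≤ Q * τ := by
    rw [abs_mul, abs_mul, abs_of_pos hϑ]
    calc ϑ * (|θ - 1 / 2| * |q|) ≤ 1 * (τ * Q) :=
          mul_le_mul hϑ1 (mul_le_mul hθ hq (abs_nonneg _) hτ0) (by positivity) zero_le_one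
      _ = Q * τ := by ring
  have h3' := abs_le.1 h3
  have hpos : 0 < Mo ρ θ := lt_of_lt_of_le (Real.exp_pos _) h1.1
  rw [mo_tilt]
  constructor
  · rw [le_div_iff₀ hpos]
    calc Real.exp (ϑ * (q / 4 + q ^ 2 / 2) - (2 + Q) * τ) * Mo ρ θ
        ≤ Real.exp (ϑ * (q / 4 + q ^ 2 / 2) - (2 + Q) * τ) *
          Real.exp (ϑ * (θ ^ 2 / 2 - θ / 4) + τ) :=
          mul_le_mul_of_nonneg_left h1.2 (Real.exp_pos _).le
      _ = Real.exp (ϑ * (q / 4 + q ^ 2 / 2) - (2 + Q) * τ + (ϑ * (θ ^ 2 / 2 - θ / 4) + τ)) := by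
          rw [← Real.exp_add]
      _ ≤ Real.exp (ϑ * ((θ + q) ^ 2 / 2 - (θ + q) / 4) - τ) := by
          apply Real.exp_le_exp.2
          have h4 : ϑ * ((θ + q) ^ 2 / 2 - (θ + q) / 4) = ϑ * (q / 4 + q ^ 2 / 2) +
              ϑ * (θ ^ 2 / 2 - θ / 4) + ϑ * ((θ - 1 / 2) * q) := by ring
          rw [h4]
          linarith
      _ ≤ Mo ρ (θ + q) := h2.1
  · rw [div_le_iff₀ hpos]
    calc Mo ρ (θ + q) ≤ Real.exp (ϑ * ((θ + q) ^ 2 / 2 - (θ + q) / 4) + τ) := h2.2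
      _ ≤ Real.exp (ϑ * (q / 4 + q ^ 2 / 2) + (2 + Q) * τ + (ϑ * (θ ^ 2 / 2 - θ / 4) - τ)) := by
          apply Real.exp_le_exp.2
          have h4 : ϑ * ((θ + q) ^ 2 / 2 - (θ + q) / 4) = ϑ * (q / 4 + q ^ 2 / 2) +
              ϑ * (θ ^ 2 / 2 - θ / 4) + ϑ * ((θ - 1 / 2) * q) := by ring
          rw [h4]
          linarith
      _ = Real.exp (ϑ * (q / 4 + q ^ 2 / 2) + (2 + Q) * τ) *
          Real.exp (ϑ * (θ ^ 2 / 2 - θ / 4) - τ) := by rw [← Real.exp_add]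
      _ ≤ Real.exp (ϑ * (q / 4 + q ^ 2 / 2) + (2 + Q) * τ) * Mo ρ θ :=
          mul_le_mul_of_nonneg_left h1.1 (Real.exp_pos _).le

theorem hh_zero (ϱ : Measure ℝ) [IsProbabilityMeasure ϱ] (n : ℕ) : hh ϱ n 0 = 1 := by
  unfold hh
  simp

/-- the mean is bounded by the moment of order `1/4` -/
theorem mean_le (ϱ : Measure ℝ) [IsProbabilityMeasure ϱ]
    (hI : ∀ t : ℝ, Integrable (fun z => Real.exp (t * z)) ϱ) :
    ∫ z, z ∂ϱ ≤ 4 * (Mo ϱ (1 / 4) - 1) := by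
  have hz : Integrable (fun z : ℝ => z) ϱ := by
    refine ((hI 1).add (hI (-1))).mono' measurable_id.aestronglyMeasurable
      (ae_of_all _ fun z => ?_)
    simp only [Pi.add_apply, one_mul, neg_mul, Real.norm_eq_abs]
    rw [abs_le]
    have h1 := Real.add_one_le_exp z
    have h2 := Real.add_one_le_exp (-z)
    have h3 := Real.exp_pos z
    have h4 := Real.exp_pos (-z)
    constructor <;> linarith
  have h1 : ∫ z, (1 + 1 / 4 * z) ∂ϱ ≤ Mo ϱ (1 / 4) := by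
    refine integral_mono ((integrable_const _).add (hz.const_mul _)) (hI _) fun z => ?_
    have := Real.add_one_le_exp (1 / 4 * z)
    simp only
    linarith
  rw [integral_add (integrable_const _) (hz.const_mul _), integral_const_mul] at h1
  simp only [integral_const, probReal_univ, smul_eq_mul, mul_one] at h1
  linarith

/-- the tail of the geometric sum -/
theorem tail_le {ϑ x : ℝ} (hϑ : 0 < ϑ) (hx : x = Real.exp (-(ϑ / 64))) (R n : ℕ) {y : ℝ}
    (hy0 : 0 ≤ y) (hy : y ≤ x) : ∑ i ∈ Finset.Ico R n, y ^ (i + 1) ≤ 64 / ϑ * x ^ R := by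
  have hx0 : 0 < x := by rw [hx]; exact Real.exp_pos _
  have hx1 : x < 1 := by
    rw [hx, Real.exp_lt_one_iff]
    linarith [div_pos hϑ (by norm_num : (0 : ℝ) < 64)]
  have h1 : ∑ i ∈ Finset.Ico R n, y ^ (i + 1) ≤ ∑ i ∈ Finset.Ico R n, x * x ^ i := by
    refine Finset.sum_le_sum fun i _ => ?_
    rw [← pow_succ']
    exact pow_le_pow_left₀ hy0 hy _
  refine h1.trans ?_
  rw [← Finset.mul_sum]
  have h2 : ∑ i ∈ Finset.Ico R n, x ^ i ≤ x ^ R / (1 - x) :=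
    geom_sum_Ico_le_of_lt_one hx0.le hx1
  have h3 : x * (1 + ϑ / 64) ≤ 1 := by
    have h4 := Real.add_one_le_exp (ϑ / 64)
    calc x * (1 + ϑ / 64) ≤ x * Real.exp (ϑ / 64) :=
          mul_le_mul_of_nonneg_left (by linarith) hx0.le
      _ = 1 := by rw [hx, ← Real.exp_add]; simp
  calc x * ∑ i ∈ Finset.Ico R n, x ^ i ≤ x * (x ^ R / (1 - x)) :=
        mul_le_mul_of_nonneg_left h2 hx0.le
    _ = x / (1 - x) * x ^ R := by ring
    _ ≤ 64 / ϑ * x ^ R := by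
        refine mul_le_mul_of_nonneg_right ?_ (pow_pos hx0 _).le
        rw [div_le_div_iff₀ (by linarith) hϑ]
        linarith

/-- `exp (-ϑ R / 64)` is small -/
theorem pow_small {ϑ x : ℝ} (hϑ : 0 < ϑ) (hx : x = Real.exp (-(ϑ / 64))) (R : ℕ)
    (hR : ϑ ^ (-(3 / 2) : ℝ) ≤ R) : x ^ R ≤ 24 * 64 ^ 4 * ϑ ^ 2 := by
  have h1 : x ^ R = Real.exp (-(ϑ * R / 64)) := by
    rw [hx, ← Real.exp_nat_mul]
    congr 1
    ring
  have h2 : ϑ ^ (-(1 / 2) : ℝ) / 64 ≤ ϑ * R / 64 := by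
    have h3 : ϑ ^ (-(1 / 2) : ℝ) = ϑ * ϑ ^ (-(3 / 2) : ℝ) := by
      nth_rewrite 2 [← Real.rpow_one ϑ]
      rw [← Real.rpow_add hϑ]
      norm_num
    rw [h3]
    have := mul_le_mul_of_nonneg_left hR hϑ.le
    linarith
  set y := ϑ ^ (-(1 / 2) : ℝ) / 64 with hy
  have hy0 : 0 < y := by positivity
  have h4 : y ^ 4 / 24 ≤ Real.exp y := by
    have := Real.pow_div_factorial_le_exp y hy0.le 4
    have h5 : ((Nat.factorial 4 : ℕ) : ℝ) = 24 := by norm_num [Nat.factorial]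
    rwa [h5] at this
  have h6 : y ^ 4 = 1 / (64 ^ 4 * ϑ ^ 2) := by
    rw [hy, div_pow, ← Real.rpow_natCast (ϑ ^ (-(1 / 2) : ℝ)) 4, ← Real.rpow_mul hϑ.le]
    have h7 : (-(1 / 2) : ℝ) * ((4 : ℕ) : ℝ) = -(2 : ℕ) := by norm_num
    rw [h7, Real.rpow_neg hϑ.le, Real.rpow_natCast]
    field_simp
  rw [h1]
  calc Real.exp (-(ϑ * R / 64)) ≤ Real.exp (-y) := Real.exp_le_exp.2 (by linarith)
    _ = 1 / Real.exp y := by rw [Real.exp_neg, one_div]
    _ ≤ 1 / (y ^ 4 / 24) := one_div_le_one_div_of_le (by positivity) h4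
    _ = 24 * 64 ^ 4 * ϑ ^ 2 := by
        rw [h6]
        field_simp

theorem ev_lt {f : ℝ → ℝ} (hf : Continuous f) {c : ℝ} (h : f 0 < c) :
    ∀ᶠ τ in 𝓝[>] (0 : ℝ), f τ < c :=
  ((hf.tendsto 0).eventually_lt_const h).filter_mono nhdsWithin_le_nhds

theorem six_up {e : ℝ} (h0 : 0 ≤ e) (h1 : e ≤ 1 / 32) : (1 + e) ^ 6 ≤ 1 + 8 * e := by
  have a : ∀ k : ℕ, 2 ≤ k → e ^ k ≤ e / 32 := by
    intro k hk
    calc e ^ k ≤ e ^ 2 := pow_le_pow_of_le_one h0 (by linarith) hk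
      _ = e * e := by ring
      _ ≤ e * (1 / 32) := mul_le_mul_of_nonneg_left h1 h0
      _ = e / 32 := by ring
  have a2 := a 2 le_rfl
  have a3 := a 3 (by norm_num)
  have a4 := a 4 (by norm_num)
  have a5 := a 5 (by norm_num)
  have a6 := a 6 (by norm_num)
  have h2 : (1 + e) ^ 6 = 1 + 6 * e + 15 * e ^ 2 + 20 * e ^ 3 + 15 * e ^ 4 + 6 * e ^ 5 + e ^ 6 := by
    ring
  rw [h2]
  linarith

/-- the upper bound for large `n` -/
theorem core_up {n n1 : ℕ} {m θ A M e S Z : ℝ} {q h : ℕ → ℝ} (hθ0 : 0 < θ)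
    (hθ : θ ≤ (1 + e) / 2) (he0 : 0 < e) (he : e ≤ 1 / 32) (hS : 0 < S) (hZ : 0 ≤ Z)
    (hA1 : 0 < A) (hA : A ≤ 1 + e) (hM0 : 0 ≤ M) (hM : M ≤ 1 + e)
    (hm1 : ∀ j, j ≤ n → 1 / A ≤ m ^ j) (hm2 : ∀ j, j ≤ n → m ^ j ≤ A)
    (hq : ∀ j, j ≤ n → Z ≤ q j) (hh0 : ∀ k, 0 ≤ h k ∧ h k ≤ 1)
    (hh1 : ∀ k, n1 ≤ k → h k ≤ (1 + e) ^ 2 * (2 * S)) (hn : (1 + n1 : ℝ) / (n + 1) ≤ e * S / 2)
    (ht : ∑ j ∈ Finset.range (n + 1), m ^ j * q j ≤
      1 + ∑ k ∈ Finset.range n, θ * m ^ (k + 1) * (M * h k)) : Z ≤ (1 + 9 * e) * S := by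
  have hn0 : (0 : ℝ) < n + 1 := by positivity
  have h1 : (n + 1) * (Z / A) ≤ ∑ j ∈ Finset.range (n + 1), m ^ j * q j := by
    have h2 : ∑ _j ∈ Finset.range (n + 1), Z / A ≤ ∑ j ∈ Finset.range (n + 1), m ^ j * q j := by
      refine Finset.sum_le_sum fun j hj => ?_
      have hj' : j ≤ n := Nat.lt_succ_iff.1 (Finset.mem_range.1 hj)
      calc Z / A = 1 / A * Z := by ring
        _ ≤ m ^ j * q j := mul_le_mul (hm1 j hj') (hq j hj') hZ
          (le_trans (by positivity) (hm1 j hj'))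
    rw [Finset.sum_const, Finset.card_range, nsmul_eq_mul] at h2
    push_cast at h2
    exact h2
  set S' := (1 + e) ^ 2 * (2 * S) with hS'
  have hS'0 : 0 < S' := by positivity
  have h3 : ∑ k ∈ Finset.range n, θ * m ^ (k + 1) * (M * h k) ≤
      θ * A * (1 + e) * (n * S' + n1) := by
    have h4 : ∀ k ∈ Finset.range n, θ * m ^ (k + 1) * (M * h k) ≤
        θ * A * (1 + e) * (S' + if k < n1 then 1 else 0) := by
      intro k hk
      have hk' : k + 1 ≤ n := Finset.mem_range.1 hk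
      have h5 : h k ≤ S' + if k < n1 then 1 else 0 := by
        split_ifs with hkn
        · linarith [(hh0 k).2]
        · rw [add_zero]
          exact hh1 k (not_lt.1 hkn)
      have h6 : θ * m ^ (k + 1) ≤ θ * A := mul_le_mul_of_nonneg_left (hm2 _ hk') hθ0.le
      calc θ * m ^ (k + 1) * (M * h k) ≤ θ * A * ((1 + e) * (S' + if k < n1 then 1 else 0)) :=
            mul_le_mul h6 (mul_le_mul hM h5 (hh0 k).1 (by linarith))
              (mul_nonneg hM0 (hh0 k).1) (by positivity)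
        _ = _ := by ring
    refine (Finset.sum_le_sum h4).trans ?_
    rw [← Finset.mul_sum, Finset.sum_add_distrib, Finset.sum_const, Finset.card_range,
      nsmul_eq_mul]
    have h7 : ∑ k ∈ Finset.range n, (if k < n1 then (1 : ℝ) else 0) ≤ n1 := by
      rw [← Finset.sum_filter, Finset.sum_const, nsmul_eq_mul, mul_one]
      have h8 : ((Finset.range n).filter fun k => k < n1) ⊆ Finset.range n1 := by
        intro k hk
        exact Finset.mem_range.2 (Finset.mem_filter.1 hk).2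
      have h9 := Finset.card_le_card h8
      rw [Finset.card_range] at h9
      exact_mod_cast h9
    exact mul_le_mul_of_nonneg_left (by linarith) (by positivity)
  have h10 : (n + 1) * (Z / A) ≤ 1 + θ * A * (1 + e) * (n * S' + n1) := by linarith
  have h11 : Z ≤ A * (1 + θ * A * (1 + e) * (n * S' + n1)) / (n + 1) := by
    rw [le_div_iff₀ hn0]
    have h12 : Z = A * (Z / A) := by field_simp
    calc Z * (n + 1) = A * ((n + 1) * (Z / A)) := by
          nth_rewrite 1 [h12]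
          ring
      _ ≤ _ := mul_le_mul_of_nonneg_left h10 hA1.le
  have h13 : θ * A * (1 + e) ≤ (1 + e) ^ 3 / 2 := by
    calc θ * A * (1 + e) ≤ (1 + e) / 2 * (1 + e) * (1 + e) :=
          mul_le_mul_of_nonneg_right (mul_le_mul hθ hA hA1.le (by linarith)) (by linarith)
      _ = _ := by ring
  have h14 : A * (1 + θ * A * (1 + e) * (n * S' + n1)) ≤
      (1 + e) * (1 + (1 + e) ^ 3 / 2 * (n * S' + n1)) := by
    refine mul_le_mul hA ?_ (by positivity) (by linarith)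
    have := mul_le_mul_of_nonneg_right h13 (by positivity : (0 : ℝ) ≤ n * S' + n1)
    linarith
  have h15 : Z ≤ (1 + e) * (1 + (1 + e) ^ 3 / 2 * (n * S' + n1)) / (n + 1) :=
    h11.trans (div_le_div_of_nonneg_right h14 hn0.le)
  have h16 : (1 + e) * (1 + (1 + e) ^ 3 / 2 * (n * S' + n1)) / (n + 1) =
      (1 + e) ^ 6 * S * (n / (n + 1)) + (1 + e) * (1 / (n + 1)) +
        (1 + e) ^ 4 / 2 * (n1 / (n + 1)) := by
    rw [hS']
    field_simp
    ring
  have h17 : (n : ℝ) / (n + 1) ≤ 1 := by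
    rw [div_le_one hn0]
    linarith
  have h18 : (1 + e) ^ 4 ≤ (1 + e) ^ 6 := pow_le_pow_right₀ (by linarith) (by norm_num)
  have h19 := six_up he0.le he
  have h20 : (1 + e) * (1 / ((n : ℝ) + 1)) + (1 + e) ^ 4 / 2 * (n1 / (n + 1)) ≤
      2 * ((1 + n1) / (n + 1)) := by
    have e1 : (1 + (n1 : ℝ)) / (n + 1) = 1 / (n + 1) + n1 / (n + 1) := by ring
    have a1 : (0 : ℝ) ≤ 1 / (n + 1) := by positivity
    have a2 : (0 : ℝ) ≤ n1 / (n + 1) := by positivity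
    rw [e1]
    have b1 := mul_le_mul_of_nonneg_right (by linarith : 1 + e ≤ 2) a1
    have b2 := mul_le_mul_of_nonneg_right (by linarith : (1 + e) ^ 4 / 2 ≤ 2) a2
    linarith
  have h21 : (1 + e) ^ 6 * S * (n / (n + 1)) ≤ (1 + 8 * e) * S := by
    calc (1 + e) ^ 6 * S * (n / (n + 1)) ≤ (1 + e) ^ 6 * S * 1 :=
          mul_le_mul_of_nonneg_left h17 (by positivity)
      _ ≤ (1 + 8 * e) * S := by
          rw [mul_one]
          exact mul_le_mul_of_nonneg_right h19 hS.le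
  rw [h16] at h15
  linarith

/-- the lower bound -/
theorem core_low {n R : ℕ} {m θ A e S Z : ℝ} {q h : ℕ → ℝ}
    (hθ : (1 - e) / 2 ≤ θ) (he0 : 0 < e) (he : e ≤ 1 / 32) (hS : 0 < S) (hZ : 0 ≤ Z)
    (hA1 : 0 < A) (hA : A ≤ 1 + e)
    (hm1 : ∀ j, j ≤ n → 1 / A ≤ m ^ j) (hm2 : ∀ j, j ≤ n → m ^ j ≤ A)
    (hq0 : ∀ j, 0 ≤ q j ∧ q j ≤ 1) (hq : ∀ j, R ≤ j → j + R ≤ n → q j ≤ Z)
    (hh1 : ∀ k, (1 - e) ^ 2 * (2 * S) ≤ h k) (hn : (2 * R + 1 : ℝ) / (n + 1) ≤ e * S)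
    (hn2 : (1 : ℝ) / (n + 1) ≤ e)
    (ht : 1 + ∑ k ∈ Finset.range n, θ * m ^ (k + 1) * h k ≤
      ∑ j ∈ Finset.range (n + 1), m ^ j * q j) : (1 - 7 * e) * S ≤ Z := by
  have hn0 : (0 : ℝ) < n + 1 := by positivity
  have hθ0 : 0 < θ := by linarith
  set S' := (1 - e) ^ 2 * (2 * S) with hS'
  have hS'0 : 0 < S' := by
    have : 0 < 1 - e := by linarith
    positivity
  have h1 : n * (θ / A * S') ≤ ∑ k ∈ Finset.range n, θ * m ^ (k + 1) * h k := by
    have h2 : ∑ _k ∈ Finset.range n, θ / A * S' ≤ ∑ k ∈ Finset.range n, θ * m ^ (k + 1) * h k := by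
      refine Finset.sum_le_sum fun k hk => ?_
      have hk' : k + 1 ≤ n := Finset.mem_range.1 hk
      have h3 : θ / A ≤ θ * m ^ (k + 1) := by
        calc θ / A = θ * (1 / A) := by ring
          _ ≤ _ := mul_le_mul_of_nonneg_left (hm1 _ hk') hθ0.le
      exact mul_le_mul h3 (hh1 k) hS'0.le (le_trans (by positivity) h3)
    rw [Finset.sum_const, Finset.card_range, nsmul_eq_mul] at h2
    exact h2
  have h4 : ∑ j ∈ Finset.range (n + 1), m ^ j * q j ≤ A * ((n + 1) * Z + 2 * R) := by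
    have h5 : ∀ j ∈ Finset.range (n + 1), m ^ j * q j ≤
        A * (Z + ((if j < R then 1 else 0) + if n - j < R then 1 else 0)) := by
      intro j hj
      have hj' : j ≤ n := Nat.lt_succ_iff.1 (Finset.mem_range.1 hj)
      refine mul_le_mul (hm2 j hj') ?_ (hq0 j).1 hA1.le
      by_cases h6 : j < R
      · rw [if_pos h6]
        have : (0 : ℝ) ≤ if n - j < R then 1 else 0 := by split_ifs <;> norm_num
        linarith [(hq0 j).2]
      · rw [if_neg h6]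
        by_cases h7 : n - j < R
        · rw [if_pos h7]
          linarith [(hq0 j).2]
        · rw [if_neg h7]
          have := hq j (not_lt.1 h6) (by omega)
          linarith
    refine (Finset.sum_le_sum h5).trans ?_
    rw [← Finset.mul_sum, Finset.sum_add_distrib, Finset.sum_add_distrib, Finset.sum_const,
      Finset.card_range, nsmul_eq_mul]
    have h8 : ∑ j ∈ Finset.range (n + 1), (if j < R then (1 : ℝ) else 0) ≤ R := by
      rw [← Finset.sum_filter, Finset.sum_const, nsmul_eq_mul, mul_one]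
      have h9 : ((Finset.range (n + 1)).filter fun k => k < R) ⊆ Finset.range R := by
        intro k hk
        exact Finset.mem_range.2 (Finset.mem_filter.1 hk).2
      have h10 := Finset.card_le_card h9
      rw [Finset.card_range] at h10
      exact_mod_cast h10
    have h11 : ∑ j ∈ Finset.range (n + 1), (if n - j < R then (1 : ℝ) else 0) ≤ R := by
      rw [← Finset.sum_range_reflect]
      refine le_trans (le_of_eq ?_) h8
      refine Finset.sum_congr rfl fun j hj => ?_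
      have hj' : j ≤ n := Nat.lt_succ_iff.1 (Finset.mem_range.1 hj)
      have e1 : n - (n + 1 - 1 - j) = j := by omega
      rw [e1]
    refine mul_le_mul_of_nonneg_left ?_ hA1.le
    push_cast
    linarith
  have h12 : n * (θ / A * S') ≤ A * ((n + 1) * Z + 2 * R) := by linarith
  have hA2 : 1 - e ≤ 1 / A := by
    rw [le_div_iff₀ hA1]
    nlinarith
  have h13 : n * (θ / A * S') / A ≤ (n + 1) * Z + 2 * R := by
    rw [div_le_iff₀ hA1]
    linarith
  have h1e : 0 < 1 - e := by linarith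
  have h14 : n * ((1 - e) ^ 5 * S) ≤ n * (θ / A * S') / A := by
    have h15 : (1 - e) ^ 5 * S ≤ θ / A * S' / A := by
      calc (1 - e) ^ 5 * S = (1 - e) / 2 * (1 - e) * S' * (1 - e) := by rw [hS']; ring
        _ ≤ θ * (1 / A) * S' * (1 / A) := by
            refine mul_le_mul ?_ hA2 h1e.le (by positivity)
            refine mul_le_mul_of_nonneg_right ?_ hS'0.le
            exact mul_le_mul hθ hA2 h1e.le hθ0.le
        _ = _ := by ring
    calc (n : ℝ) * ((1 - e) ^ 5 * S) ≤ n * (θ / A * S' / A) :=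
          mul_le_mul_of_nonneg_left h15 (Nat.cast_nonneg _)
      _ = _ := by ring
  have h16 : n * ((1 - e) ^ 5 * S) ≤ (n + 1) * Z + 2 * R := h14.trans h13
  have h17 : (n / (n + 1)) * ((1 - e) ^ 5 * S) - (2 * R + 1) / (n + 1) ≤ Z := by
    have h18 : (n / (n + 1)) * ((1 - e) ^ 5 * S) - (2 * R + 1) / (n + 1) =
        (n * ((1 - e) ^ 5 * S) - (2 * R + 1)) / (n + 1) := by ring
    rw [h18, div_le_iff₀ hn0]
    linarith
  have h19 : 1 - e ≤ (n : ℝ) / (n + 1) := by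
    have h20 : (n : ℝ) / (n + 1) = 1 - 1 / (n + 1) := by field_simp; ring
    rw [h20]
    linarith
  have h21 : (1 - e) ^ 6 * S ≤ (n / (n + 1)) * ((1 - e) ^ 5 * S) := by
    calc (1 - e) ^ 6 * S = (1 - e) * ((1 - e) ^ 5 * S) := by ring
      _ ≤ _ := mul_le_mul_of_nonneg_right h19 (by positivity)
  have h22 : 1 - 6 * e ≤ (1 - e) ^ 6 := by
    have := one_add_mul_le_pow (by linarith : -2 ≤ -e) 6
    have e2 : (1 + -e) = 1 - e := by ring
    rw [e2] at this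
    push_cast at this
    linarith
  have h23 : (1 - 6 * e) * S ≤ (1 - e) ^ 6 * S := mul_le_mul_of_nonneg_right h22 hS.le
  linarith

/-- the choice of `τ` -/
theorem ex_tau {e ϑ S c B : ℝ} (N : ℕ) (he0 : 0 < e) (hϑ : 0 < ϑ) (hS : 0 < S) (he1 : e < 1)
    (hc : 0 < c) : ∃ τ : ℝ, 0 < τ ∧ B * τ < c ∧ Real.exp (2 * τ * N) < 1 + e ∧
      2 * τ < e ∧ ((1 + e) * S) ^ (-(2 * τ)) < 1 + e ∧ 1 - e < ((1 - e) * S) ^ (2 * τ) ∧
      (3 * ϑ / 5) ^ (-(2 * τ)) < 5 / 3 := by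
  have E1 := ev_lt (f := fun τ => B * τ) (by fun_prop) (c := c) (by simpa using hc)
  have E2 := ev_lt (f := fun τ => Real.exp (2 * τ * N)) (by fun_prop) (c := 1 + e) (by simpa)
  have E3 := ev_lt (f := fun τ => 2 * τ) (by fun_prop) (c := e) (by simpa)
  have hp1 : 0 < (1 + e) * S := by positivity
  have hp2 : 0 < (1 - e) * S := mul_pos (by linarith) hS
  have E4 := ev_lt (f := fun τ => ((1 + e) * S) ^ (-(2 * τ)))
    ((Real.continuous_const_rpow hp1.ne').comp (by fun_prop)) (c := 1 + e) (by simpa)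
  have E5 := ev_lt (f := fun τ => -((1 - e) * S) ^ (2 * τ))
    ((Real.continuous_const_rpow hp2.ne').comp (by fun_prop)).neg (c := -(1 - e)) (by simpa)
  have E6 := ev_lt (f := fun τ => (3 * ϑ / 5) ^ (-(2 * τ)))
    ((Real.continuous_const_rpow (by positivity)).comp (by fun_prop)) (c := 5 / 3)
    (by norm_num)
  obtain ⟨τ, ⟨⟨⟨⟨⟨⟨h1, h2⟩, h3⟩, h4⟩, h5⟩, h6⟩, h7⟩⟩ :=
    ((((((E1.and E2).and E3).and E4).and E5).and E6).and
      (self_mem_nhdsWithin : ∀ᶠ τ in 𝓝[>] (0 : ℝ), τ ∈ Set.Ioi (0 : ℝ))).exists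
  exact ⟨τ, h7, h1, h2, h3, h4, by linarith, h6⟩

/-- the choice of `n` -/
theorem ex_n {e S : ℝ} (R n1 : ℕ) (he0 : 0 < e) (hS : 0 < S) : ∃ n : ℕ, R ≤ n ∧
    (1 + n1 : ℝ) / (n + 1) ≤ e * S / 2 ∧ (2 * R + 1 : ℝ) / (n + 1) ≤ e * S ∧
    (1 : ℝ) / (n + 1) ≤ e := by
  obtain ⟨n, hn⟩ := exists_nat_gt ((1 + n1 : ℝ) / (e * S / 2) + (2 * R + 1 : ℝ) / (e * S) +
    1 / e + R)
  have a1 : (0 : ℝ) ≤ (1 + n1 : ℝ) / (e * S / 2) := by positivity
  have a2 : (0 : ℝ) ≤ (2 * R + 1 : ℝ) / (e * S) := by positivity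
  have a3 : (0 : ℝ) ≤ 1 / e := by positivity
  have a4 : (0 : ℝ) ≤ (R : ℝ) := Nat.cast_nonneg _
  have hn0 : (0 : ℝ) < n + 1 := by positivity
  refine ⟨n, ?_, ?_, ?_, ?_⟩
  · have : (R : ℝ) ≤ n := by linarith
    exact_mod_cast this
  · rw [div_le_iff₀ hn0, mul_comm (e * S / 2), ← div_le_iff₀ (by positivity)]
    linarith
  · rw [div_le_iff₀ hn0, mul_comm (e * S), ← div_le_iff₀ (by positivity)]
    linarith
  · rw [div_le_iff₀ hn0, mul_comm e, ← div_le_iff₀ he0]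
    linarith

theorem exp_tenth {ϑ : ℝ} (h0 : 0 < ϑ) (h1 : ϑ ≤ 1) : Real.exp (ϑ / 10) ≤ 1 + ϑ / 8 := by
  have h11 : Real.exp (ϑ / 10) * (1 - ϑ / 10) ≤ 1 := by
    have h3 : 1 - ϑ / 10 ≤ Real.exp (-(ϑ / 10)) := by
      have := Real.add_one_le_exp (-(ϑ / 10))
      linarith
    calc Real.exp (ϑ / 10) * (1 - ϑ / 10) ≤ Real.exp (ϑ / 10) * Real.exp (-(ϑ / 10)) :=
          mul_le_mul_of_nonneg_left h3 (Real.exp_pos _).le
      _ = 1 := by rw [← Real.exp_add]; simp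
  have h12 : Real.exp (ϑ / 10) ≤ 1 / (1 - ϑ / 10) := by
    rw [le_div_iff₀ (by linarith)]
    exact h11
  refine h12.trans ?_
  rw [div_le_iff₀ (by linarith)]
  nlinarith

end Pool.Agent.H27.EX
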